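import Mathlib
import Pool.Agent.H26.FB1

set_option autoImplicit false

namespace Pool.Agent.Results.MP_8a6196_an.Counterexample

open H26 FB0 FB1

lemma half {E X : Type} [NormedAddCommGroup E] [NormedSpace ℝ E] [NormedAddCommGroup X]
    [NormedSpace ℝ X] {ι : X → (E →L[ℝ] ℝ) → ℝ} (h : IsModel ι) {u v : E}
    (huv : ∀ s t : ℝ, s ^ 2 + t ^ 2 = 1 → ‖s • u + t • v‖ ≤ 1) (φ : E →L[ℝ] ℝ) (h1 : ‖φ‖ ≤ 1)
    (h2 : φ u = 1) (h3 : φ v = 0) : ∃ a : X, ‖a‖ = 1 ∧ ∀ y, ‖y‖ = 1 → 199 / 100 < ‖a + y‖ →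
      ∃ (m : ℕ) (x : Fin m → E →L[ℝ] ℝ), 99 / 100 < ∑ i, |ι y (x i)| ∧ ∑ i, |x i u| ≤ 1 ∧
        ∑ i, |x i v| ≤ 26 / 75 := by
  obtain ⟨a, ha⟩ := m_gen h (((((Gen.delta u).sup ((Gen.delta u).smul (-1))).add
    (((Gen.delta v).sup ((Gen.delta v).smul (-1))).smul (-1))).sup ((Gen.delta u).smul 0)))
  have h4 : ∀ x, ι a x = max (|x u| - |x v|) 0 := fun x => by
    simp [ha, abs_eq_max_neg, sub_eq_add_neg]
  have hu : ‖u‖ ≤ 1 := by simpa using huv 1 0 (by norm_num)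
  have h5 : ‖a‖ = 1 := le_antisymm ((m_dom h a u fun x => by
    rw [h4, abs_of_nonneg (le_max_right _ _)]
    exact max_le (sub_le_self _ (abs_nonneg _)) (abs_nonneg _)).trans hu) (by
      simpa [h4, h2, h3, ← h.2.2] using single (mem h a).1 φ one_pos h1)
  refine ⟨a, h5, fun y hy hy' => ?_⟩
  obtain ⟨m, x, hx, hx'⟩ := m_lt h hy'
  have h6 := m_tuple h a x one_pos hx
  have h7 := m_tuple h y x one_pos hx
  have h8 := hx'.trans_le (Finset.sum_le_sum fun i _ => (congrArg _ (m_add h a y _)).trans_le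
    (abs_add_le _ _))
  rw [Finset.sum_add_distrib] at h8
  have h9 : ∑ i, (8 / 5 * |ι a (x i)| + 6 / 5 * |x i v|) ≤ ∑ i, (|x i ((4 / 5 : ℝ) • u + (3 / 5 : ℝ) • v)|
      + |x i ((4 / 5 : ℝ) • u + (-3 / 5 : ℝ) • v)|) := Finset.sum_le_sum fun i _ => by
    rw [h4, abs_of_nonneg (le_max_right _ _)]
    simp only [map_add, map_smul, smul_eq_mul]
    generalize x i u = p
    generalize x i v = q
    rcases le_total (|p| - |q|) 0 with h | h <;> simp only [max_eq_left, max_eq_right, h] <;>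
      cases abs_cases p <;> cases abs_cases q <;> cases abs_cases (4 / 5 * p + 3 / 5 * q) <;>
      cases abs_cases (4 / 5 * p + -3 / 5 * q) <;> linarith
  simp only [Finset.sum_add_distrib, ← Finset.mul_sum] at h9
  exact ⟨m, x, by linarith, hx u hu, by
    linarith [hx _ (huv (4 / 5) (3 / 5) (by norm_num)), hx _ (huv (4 / 5) (-3 / 5) (by norm_num))]⟩

theorem result : ∃ (E : Type) (_ : NormedAddCommGroup E) (_ : NormedSpace ℝ E),
    Module.finrank ℝ E = 2 ∧ ∃ (X : Type) (_ : NormedAddCommGroup X) (_ : NormedSpace ℝ X)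
      (ι : X → (E →L[ℝ] ℝ) → ℝ), IsModel ι ∧ ¬ Oct X := by
  obtain ⟨X, _, _, ι, h⟩ := exists_model ℂ
  refine ⟨ℂ, inferInstance, inferInstance, Complex.finrank_real_complex, X, _, _, ι, h, fun H => ?_⟩
  have h0 : ∀ z : ℂ, z.re ^ 2 + z.im ^ 2 = 1 → ‖z‖ ≤ 1 := fun z hz => by
    rw [Complex.norm_eq_sqrt_sq_add_sq, hz, Real.sqrt_one]
  obtain ⟨a, a1, a2⟩ := half h (u := 1) (v := .I) (fun s t h => h0 _ (by simpa using h)) Complex.reCLM
    Complex.reCLM_norm.le (by simp) (by simp)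
  obtain ⟨b, b1, b2⟩ := half h (u := .I) (v := 1) (fun s t h => h0 _ (by simpa [add_comm] using h))
    Complex.imCLM Complex.imCLM_norm.le (by simp) (by simp)
  obtain ⟨y, y1, y2⟩ := H (Submodule.span ℝ {a, b}) (.span_of_finite ℝ (by simp)) (1 / 300) (by norm_num)
  have h1 := y2 a (Submodule.subset_span (by simp)) 1
  have h2 := y2 b (Submodule.subset_span (by simp)) 1
  rw [one_smul, abs_one] at h1 h2
  obtain ⟨m, x, x1, x2, x3⟩ := a2 y y1 (by linarith)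
  obtain ⟨n, z, z1, z2, z3⟩ := b2 y y1 (by linarith)
  have h3 := m_tuple h y (Sum.elim x z) (c := 101 / 75 * (17 / 12)) (by norm_num) fun w hw => by
    have h4 : ∀ φ : ℂ →L[ℝ] ℝ, |φ w| ≤ |w.re| * |φ 1| + |w.im| * |φ .I| := fun φ => by
      conv_lhs => rw [show w = w.re • (1 : ℂ) + w.im • Complex.I by simp]
      rw [map_add, map_smul, map_smul, ← abs_mul, ← abs_mul]
      exact abs_add_le _ _
    have h5 : w.re ^ 2 + w.im ^ 2 ≤ 1 := by
      rw [Complex.norm_eq_sqrt_sq_add_sq] at hw; exact Real.sqrt_le_one.1 hw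
    have h6 : |w.re| + |w.im| ≤ 17 / 12 := by
      nlinarith [sq_abs w.re, sq_abs w.im, sq_nonneg (|w.re| - |w.im|), abs_nonneg w.re, abs_nonneg w.im]
    refine (Finset.sum_le_sum fun i _ => h4 _).trans ?_
    simp only [Fintype.sum_sum_type, Sum.elim_inl, Sum.elim_inr, Finset.sum_add_distrib,
      ← Finset.mul_sum]
    nlinarith [abs_nonneg w.re, abs_nonneg w.im]
  simp only [Fintype.sum_sum_type, Sum.elim_inl, Sum.elim_inr] at h3
  linarith

end Pool.Agent.Results.MP_8a6196_an.Counterexample
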